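import Pool.Agent.Helper73.LF.Goals
import Pool.Agent.Helper92.Field.Divisor

/-!
# Project LF, packet BLK: the second terms
-/

set_option autoImplicit false

open Finset

namespace Pool.Agent.Helper30.LF

open Pool.Agent.Helper73.LF Pool.Agent.Helper98.Lang

theorem pr_nonneg {m : ℕ} (θ : Fin m → ℝ) (H h : ℕ) : 0 ≤ Pr θ H h := by
  unfold Pr
  apply Finset.prod_nonneg
  intro i _
  apply le_min
  · positivity
  · apply one_div_nonneg.2
    unfold nd
    exact abs_nonneg _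

theorem pairs (f : ℕ → ℝ) (hf : ∀ y, 0 ≤ f y) (Q : Finset ℕ) (hQ : ∀ q ∈ Q, 1 ≤ q) (T : ℕ → ℕ)
    (Y : ℕ) (hY : ∀ q ∈ Q, ∀ h ∈ Ico 1 (T q), h * q ≤ Y) :
    ∑ q ∈ Q, ∑ h ∈ Ico 1 (T q), f (h * q) ≤ ∑ y ∈ Icc 1 Y, (y.divisors.card : ℝ) * f y := by
  calc ∑ q ∈ Q, ∑ h ∈ Ico 1 (T q), f (h * q)
      ≤ ∑ q ∈ Q, ∑ y ∈ (Icc 1 Y).filter (fun y => q ∣ y), f y := by
        apply Finset.sum_le_sum
        intro q hq
        have h1 := hQ q hq
        have hinj : Set.InjOn (fun h => h * q) (Ico 1 (T q) : Finset ℕ) := by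
          intro a _ b _ hab
          exact Nat.eq_of_mul_eq_mul_right (by omega) hab
        rw [← Finset.sum_image (f := f) hinj]
        apply Finset.sum_le_sum_of_subset_of_nonneg
        · intro y hy
          rw [Finset.mem_image] at hy
          obtain ⟨h, hh, rfl⟩ := hy
          rw [Finset.mem_filter, Finset.mem_Icc]
          refine ⟨⟨?_, hY q hq h hh⟩, Dvd.intro_left h rfl⟩
          rw [Finset.mem_Ico] at hh
          exact Nat.mul_pos (by omega) (by omega)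
        · intros
          exact hf _
    _ = ∑ y ∈ Icc 1 Y, ∑ q ∈ Q.filter (fun q => q ∣ y), f y := by
        simp only [Finset.sum_filter]
        exact Finset.sum_comm
    _ ≤ ∑ y ∈ Icc 1 Y, (y.divisors.card : ℝ) * f y := by
        apply Finset.sum_le_sum
        intro y hy
        rw [Finset.sum_const, nsmul_eq_mul]
        apply mul_le_mul_of_nonneg_right _ (hf y)
        norm_cast
        apply Finset.card_le_card
        intro q hq
        rw [Finset.mem_filter] at hq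
        rw [Nat.mem_divisors]
        rw [Finset.mem_Icc] at hy
        exact ⟨hq.2, by omega⟩

theorem tq_le {e c : ℝ} (he : 0 < e) (hc : 0 < c) {q : ℕ} (hq : 2 ≤ q) :
    tq e c q ≤ c / Real.log 2 ^ (1 + e) * (1 / (q : ℝ)) := by
  unfold tq
  have hq0 : (0 : ℝ) < q := by positivity
  have hl : 0 < Real.log 2 := Real.log_pos (by norm_num)
  have hlq : Real.log 2 ≤ Real.log q := Real.log_le_log (by norm_num) (by exact_mod_cast hq)
  have h1 : Real.log 2 ^ (1 + e) ≤ Real.log q ^ (1 + e) :=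
    Real.rpow_le_rpow hl.le hlq (by positivity)
  have h2 : 0 < Real.log 2 ^ (1 + e) := by positivity
  rw [div_mul_div_comm, mul_one]
  apply div_le_div_of_nonneg_left hc.le (by positivity)
  rw [mul_comm]
  gcongr

theorem hq_le {e c d : ℝ} (he : 0 < e) (hc : 0 < c) (hd : 0 < d) : ∃ B : ℝ, 0 < B ∧
    ∀ q : ℕ, 2 ≤ q → ∀ h : ℕ, h < Tq e c q → ((h * q : ℕ) : ℝ) ≤ B * (q : ℝ) ^ (2 + d) := by
  set a : ℝ := d / (1 + e) with ha
  have ha0 : 0 < a := by positivity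
  refine ⟨1 / (2 * c * a ^ (1 + e)), by positivity, ?_⟩
  intro q hq h hh
  have hq0 : (0 : ℝ) < q := by positivity
  have hq1 : (1 : ℝ) < q := by exact_mod_cast (by omega : 1 < q)
  have hlq : 0 < Real.log q := Real.log_pos hq1
  have h1 : (h : ℝ) ≤ 1 / (2 * tq e c q) := by
    have := Nat.floor_le (a := 1 / (2 * tq e c q)) (by unfold tq; positivity)
    have h2 : (h : ℝ) ≤ (Tq e c q : ℝ) := by exact_mod_cast hh.le
    unfold Tq at h2
    linarith
  have h2 : 1 / (2 * tq e c q) = q * Real.log q ^ (1 + e) / (2 * c) := by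
    unfold tq
    field_simp
  have h3 : Real.log q ≤ (q : ℝ) ^ a / a := Real.log_le_rpow_div hq0.le ha0
  have h4 : Real.log q ^ (1 + e) ≤ (q : ℝ) ^ d / a ^ (1 + e) := by
    calc Real.log q ^ (1 + e) ≤ ((q : ℝ) ^ a / a) ^ (1 + e) :=
          Real.rpow_le_rpow hlq.le h3 (by positivity)
      _ = (q : ℝ) ^ d / a ^ (1 + e) := by
          rw [Real.div_rpow (by positivity) ha0.le, ← Real.rpow_mul hq0.le]
          congr 2
          rw [ha]
          field_simp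
  have h5 : (q : ℝ) ^ (2 + d) = q * q * (q : ℝ) ^ d := by
    rw [Real.rpow_add hq0, Real.rpow_two]
    ring
  push_cast
  calc (h : ℝ) * q ≤ (q * Real.log q ^ (1 + e) / (2 * c)) * q := by
        rw [← h2]
        gcongr
    _ ≤ (q * ((q : ℝ) ^ d / a ^ (1 + e)) / (2 * c)) * q := by gcongr
    _ = 1 / (2 * c * a ^ (1 + e)) * (q : ℝ) ^ (2 + d) := by
        rw [h5]
        field_simp

theorem block (hS : GSum) {m : ℕ} {x : Fin m → ℝ} (hx : SchP x) {e c d : ℝ} (he : 0 < e)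
    (hc : 0 < c) (hd : 0 < d) : ∃ C : ℝ, 0 < C ∧ ∀ Z X H : ℕ, 1 ≤ Z → 1 ≤ H →
    ∑ q ∈ (Icc 2 X).filter (fun q => q < Z), ∑ h ∈ Ico 1 (Tq e c q), Pr x H (h * q)
      ≤ C * (Z : ℝ) ^ ((2 + d) * (1 + 2 * d)) * (H : ℝ) ^ d := by
  obtain ⟨B, hB, hBq⟩ := hq_le he hc hd
  obtain ⟨C1, hC1, hdiv⟩ := Pool.Agent.Helper92.Field.divisor_bound hd
  obtain ⟨C2, hC2, hsum⟩ := hS m x hx d hd
  refine ⟨C1 * C2 * B ^ (1 + 2 * d), by positivity, ?_⟩
  intro Z X H hZ hH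
  have hZ0 : (0 : ℝ) < Z := by positivity
  set W : ℝ := B * (Z : ℝ) ^ (2 + d) with hW
  have hW0 : 0 < W := by positivity
  set Y : ℕ := ⌊W⌋₊ with hY
  have hYW : (Y : ℝ) ≤ W := Nat.floor_le hW0.le
  have hp := pairs (fun y => Pr x H y) (fun y => pr_nonneg x H y)
    ((Icc 2 X).filter (fun q => q < Z)) (fun q hq => by
      rw [Finset.mem_filter, Finset.mem_Icc] at hq; omega) (Tq e c) Y (by
      intro q hq h hh
      rw [Finset.mem_filter, Finset.mem_Icc] at hq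
      rw [Finset.mem_Ico] at hh
      apply Nat.le_floor
      refine (hBq q hq.1.1 h hh.2).trans ?_
      rw [hW]
      gcongr
      exact_mod_cast hq.2.le)
  refine hp.trans ?_
  have h1 : ∀ y ∈ Icc 1 Y, (y.divisors.card : ℝ) * Pr x H y ≤ C1 * W ^ d * Pr x H y := by
    intro y hy
    rw [Finset.mem_Icc] at hy
    apply mul_le_mul_of_nonneg_right _ (pr_nonneg x H y)
    refine (hdiv y (by omega)).trans ?_
    have : (y : ℝ) ≤ W := (by exact_mod_cast hy.2 : (y : ℝ) ≤ Y).trans hYW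
    gcongr
  refine (Finset.sum_le_sum h1).trans ?_
  rw [← Finset.mul_sum]
  have h2 := hsum Y H hH
  have h3 : (Y : ℝ) ^ (1 + d) ≤ W ^ (1 + d) := Real.rpow_le_rpow (by positivity) hYW (by positivity)
  have h4 : W ^ d * W ^ (1 + d) = B ^ (1 + 2 * d) * (Z : ℝ) ^ ((2 + d) * (1 + 2 * d)) := by
    rw [← Real.rpow_add hW0, hW, Real.mul_rpow hB.le (by positivity), ← Real.rpow_mul hZ0.le]
    ring_nf
  calc C1 * W ^ d * ∑ y ∈ Icc 1 Y, Pr x H y
      ≤ C1 * W ^ d * (C2 * (Y : ℝ) ^ (1 + d) * (H : ℝ) ^ d) := by gcongr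
    _ ≤ C1 * W ^ d * (C2 * W ^ (1 + d) * (H : ℝ) ^ d) := by gcongr
    _ = C1 * C2 * (W ^ d * W ^ (1 + d)) * (H : ℝ) ^ d := by ring
    _ = C1 * C2 * B ^ (1 + 2 * d) * (Z : ℝ) ^ ((2 + d) * (1 + 2 * d)) * (H : ℝ) ^ d := by
        rw [h4]
        ring

theorem total (hS : GSum) {m : ℕ} {x : Fin m → ℝ} (hx : SchP x) {e c d : ℝ} (he : 0 < e)
    (hc : 0 < c) (hd : 0 < d) (hd1 : d ≤ 1) : ∃ K : ℝ, 0 < K ∧ ∀ X H : ℕ, 2 ≤ X → 1 ≤ H →
    ∑ q ∈ Icc 2 X, tq e c q * ∑ h ∈ Ico 1 (Tq e c q), Pr x H (h * q)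
      ≤ K * (X : ℝ) ^ (1 + 8 * d) * (H : ℝ) ^ d := by
  obtain ⟨C, hC, hblk⟩ := block hS hx he hc hd
  have hl : 0 < Real.log 2 := Real.log_pos (by norm_num)
  set A : ℝ := c / Real.log 2 ^ (1 + e) with hA
  have hA0 : 0 < A := by positivity
  set s : ℝ := (2 + d) * (1 + 2 * d) with hs
  have hs1 : 0 < s - 1 := by rw [hs]; nlinarith
  refine ⟨A * C * 2 * (1 / (d * Real.log 2) + 1) * 2 ^ (s - 1), by positivity, ?_⟩
  intro X H hX hH
  have hX0 : (0 : ℝ) < X := by positivity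
  have hX1 : (1 : ℝ) ≤ X := by exact_mod_cast (by omega : 1 ≤ X)
  set L : ℕ := Nat.log 2 X with hL
  have hLX : 2 ^ L ≤ X := Nat.pow_log_le_self 2 (by omega)
  have hLXr : (2 : ℝ) ^ L ≤ X := by exact_mod_cast hLX
  set S : ℕ → ℝ := fun q => ∑ h ∈ Ico 1 (Tq e c q), Pr x H (h * q) with hSdef
  have hS0 : ∀ q, 0 ≤ S q := fun q => Finset.sum_nonneg fun h _ => pr_nonneg x H _
  have key : ∀ q ∈ Icc 2 X, tq e c q * S q ≤
      A * ∑ i ∈ range (L + 1), (if q < 2 ^ (i + 1) then (1 / (2 : ℝ) ^ i) * S q else 0) := by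
    intro q hq
    rw [Finset.mem_Icc] at hq
    have hq0 : (0 : ℝ) < q := by
      have : 0 < q := by omega
      exact_mod_cast this
    have h1 := tq_le he hc hq.1
    set i0 := Nat.log 2 q with hi0
    have h2 : 2 ^ i0 ≤ q := Nat.pow_log_le_self 2 (by omega)
    have h3 : q < 2 ^ (i0 + 1) := Nat.lt_pow_succ_log_self (by norm_num) q
    have h4 : i0 ≤ L := Nat.log_mono_right hq.2
    have h5 : (1 / (2 : ℝ) ^ i0) * S q ≤
        ∑ i ∈ range (L + 1), (if q < 2 ^ (i + 1) then (1 / (2 : ℝ) ^ i) * S q else 0) := by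
      have := Finset.single_le_sum (f := fun i => if q < 2 ^ (i + 1) then (1 / (2 : ℝ) ^ i) * S q
        else 0) (s := range (L + 1)) (fun i _ => by
          split_ifs
          · have := hS0 q
            positivity
          · exact le_rfl) (Finset.mem_range.2 (Nat.lt_succ_of_le h4))
      simpa [h3] using this
    have h6 : 1 / (q : ℝ) ≤ 1 / (2 : ℝ) ^ i0 := by
      apply one_div_le_one_div_of_le (by positivity)
      exact_mod_cast h2
    calc tq e c q * S q ≤ A * (1 / (q : ℝ)) * S q :=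
          mul_le_mul_of_nonneg_right h1 (hS0 q)
      _ ≤ A * (1 / (2 : ℝ) ^ i0) * S q := by
          apply mul_le_mul_of_nonneg_right _ (hS0 q)
          gcongr
      _ = A * ((1 / (2 : ℝ) ^ i0) * S q) := by ring
      _ ≤ _ := by gcongr
  refine (Finset.sum_le_sum key).trans ?_
  rw [← Finset.mul_sum, Finset.sum_comm]
  have hinner : ∀ i ∈ range (L + 1),
      ∑ q ∈ Icc 2 X, (if q < 2 ^ (i + 1) then (1 / (2 : ℝ) ^ i) * S q else 0) ≤
        C * 2 * (2 * (X : ℝ)) ^ (s - 1) * (H : ℝ) ^ d := by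
    intro i hi
    rw [Finset.mem_range] at hi
    rw [← Finset.sum_filter, ← Finset.mul_sum]
    have h1 := hblk (2 ^ (i + 1)) X H Nat.one_le_two_pow hH
    push_cast at h1
    have h2 : (2 : ℝ) ^ (i + 1) ≤ 2 * X := by
      have : (2 : ℝ) ^ i ≤ X :=
        (pow_le_pow_right₀ (by norm_num) (by omega : i ≤ L)).trans hLXr
      rw [pow_succ]
      linarith
    have h3 : ((2 : ℝ) ^ (i + 1)) ^ s = (2 : ℝ) ^ (i + 1) * ((2 : ℝ) ^ (i + 1)) ^ (s - 1) := by
      rw [Real.rpow_sub (by positivity), Real.rpow_one]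
      field_simp
    calc 1 / (2 : ℝ) ^ i * ∑ q ∈ (Icc 2 X).filter (fun q => q < 2 ^ (i + 1)), S q
        ≤ 1 / (2 : ℝ) ^ i * (C * ((2 : ℝ) ^ (i + 1)) ^ s * (H : ℝ) ^ d) := by
          gcongr
      _ = C * 2 * ((2 : ℝ) ^ (i + 1)) ^ (s - 1) * (H : ℝ) ^ d := by
          rw [h3, pow_succ]
          field_simp
      _ ≤ C * 2 * (2 * (X : ℝ)) ^ (s - 1) * (H : ℝ) ^ d := by
          gcongr
  have hsum := Finset.sum_le_sum hinner
  rw [Finset.sum_const, Finset.card_range, nsmul_eq_mul] at hsum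
  have hLb : ((L + 1 : ℕ) : ℝ) ≤ (1 / (d * Real.log 2) + 1) * (X : ℝ) ^ d := by
    have h1 := Real.add_one_le_exp ((L : ℝ) * (d * Real.log 2))
    have h2 : Real.exp ((L : ℝ) * (d * Real.log 2)) = ((2 : ℝ) ^ L) ^ d := by
      rw [← Real.rpow_natCast 2 L, ← Real.rpow_mul (by norm_num),
        Real.rpow_def_of_pos (by norm_num)]
      ring_nf
    have h3 : ((2 : ℝ) ^ L) ^ d ≤ (X : ℝ) ^ d := Real.rpow_le_rpow (by positivity) hLXr hd.le
    have h4 : (1 : ℝ) ≤ (X : ℝ) ^ d := Real.one_le_rpow hX1 hd.le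
    have h5 : (L : ℝ) ≤ 1 / (d * Real.log 2) * (X : ℝ) ^ d := by
      rw [one_div, ← div_eq_inv_mul, le_div_iff₀ (by positivity)]
      linarith
    push_cast
    linarith
  have hXs : (X : ℝ) ^ d * (2 * (X : ℝ)) ^ (s - 1) ≤ 2 ^ (s - 1) * (X : ℝ) ^ (1 + 8 * d) := by
    rw [Real.mul_rpow (by norm_num) hX0.le, mul_left_comm, ← Real.rpow_add hX0]
    apply mul_le_mul_of_nonneg_left _ (by positivity)
    apply Real.rpow_le_rpow_of_exponent_le hX1
    rw [hs]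
    nlinarith
  calc A * ∑ i ∈ range (L + 1),
        ∑ q ∈ Icc 2 X, (if q < 2 ^ (i + 1) then (1 / (2 : ℝ) ^ i) * S q else 0)
      ≤ A * (((L + 1 : ℕ) : ℝ) * (C * 2 * (2 * (X : ℝ)) ^ (s - 1) * (H : ℝ) ^ d)) := by
        gcongr
    _ ≤ A * (((1 / (d * Real.log 2) + 1) * (X : ℝ) ^ d) *
          (C * 2 * (2 * (X : ℝ)) ^ (s - 1) * (H : ℝ) ^ d)) := by
        gcongr
    _ = A * C * 2 * (1 / (d * Real.log 2) + 1) *
          ((X : ℝ) ^ d * (2 * (X : ℝ)) ^ (s - 1)) * (H : ℝ) ^ d := by ring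
    _ ≤ A * C * 2 * (1 / (d * Real.log 2) + 1) *
          (2 ^ (s - 1) * (X : ℝ) ^ (1 + 8 * d)) * (H : ℝ) ^ d := by
        gcongr
    _ = _ := by ring

theorem blk_of (hS : GSum) : GBlk := by
  intro m x hx e c k he hc hk
  by_cases hmk : (m : ℝ) - k ≤ 0
  · refine ⟨1, fun H hH => ?_⟩
    have h1 : (H : ℝ) ^ ((m : ℝ) - k) ≤ 1 :=
      Real.rpow_le_one_of_one_le_of_nonpos (by exact_mod_cast hH) hmk
    have h2 : ⌊(H : ℝ) ^ ((m : ℝ) - k)⌋₊ ≤ 1 := Nat.floor_le_of_le (by simpa using h1)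
    rw [Finset.Icc_eq_empty (by omega), Finset.sum_empty]
    positivity
  push Not at hmk
  set d : ℝ := min 1 (k / (4 * (8 * m + 1))) with hd
  have hd0 : 0 < d := lt_min one_pos (by positivity)
  have hd1 : d ≤ 1 := min_le_left _ _
  have hd2 : d * (8 * m + 1) ≤ k / 4 := by
    have : d ≤ k / (4 * (8 * m + 1)) := min_le_right _ _
    calc d * (8 * m + 1) ≤ k / (4 * (8 * m + 1)) * (8 * m + 1) := by gcongr
      _ = k / 4 := by field_simp
  obtain ⟨K, hK, htot⟩ := total hS hx he hc hd0 hd1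
  refine ⟨⌈K ^ (4 / k)⌉₊ + 1, fun H hH => ?_⟩
  have hH1 : 1 ≤ H := by omega
  have hH1r : (1 : ℝ) ≤ H := by exact_mod_cast hH1
  have hH0r : (0 : ℝ) < H := by linarith
  set X : ℕ := ⌊(H : ℝ) ^ ((m : ℝ) - k)⌋₊ with hX
  by_cases hX2 : X < 2
  · rw [Finset.Icc_eq_empty (by omega), Finset.sum_empty]
    positivity
  have hXH : (X : ℝ) ≤ (H : ℝ) ^ ((m : ℝ) - k) := Nat.floor_le (by positivity)
  have hKH : K ≤ (H : ℝ) ^ (k / 4) := by
    have h1 : K ^ (4 / k) ≤ H := by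
      refine (Nat.le_ceil _).trans ?_
      exact_mod_cast (by omega : ⌈K ^ (4 / k)⌉₊ ≤ H)
    calc K = (K ^ (4 / k)) ^ (k / 4) := by
          rw [← Real.rpow_mul hK.le]
          have : 4 / k * (k / 4) = 1 := by field_simp
          rw [this, Real.rpow_one]
      _ ≤ (H : ℝ) ^ (k / 4) := Real.rpow_le_rpow (by positivity) h1 (by positivity)
  have hXp : (X : ℝ) ^ (1 + 8 * d) ≤ (H : ℝ) ^ (((m : ℝ) - k) * (1 + 8 * d)) := by
    rw [Real.rpow_mul hH0r.le]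
    exact Real.rpow_le_rpow (by positivity) hXH (by positivity)
  calc _ ≤ K * (X : ℝ) ^ (1 + 8 * d) * (H : ℝ) ^ d := htot X H (by omega) hH1
    _ ≤ (H : ℝ) ^ (k / 4) * (H : ℝ) ^ (((m : ℝ) - k) * (1 + 8 * d)) * (H : ℝ) ^ d := by
        gcongr
    _ = (H : ℝ) ^ (k / 4 + ((m : ℝ) - k) * (1 + 8 * d) + d) := by
        rw [Real.rpow_add hH0r, Real.rpow_add hH0r]
    _ ≤ (H : ℝ) ^ ((m : ℝ) - k / 2) := by
        apply Real.rpow_le_rpow_of_exponent_le hH1r
        nlinarith [mul_pos hd0 hk]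

end Pool.Agent.Helper30.LF
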